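import Pool.Agent.Helper49.RZ.St

/-!
# Project RZ (MP_77656e_ag), literal layer, module L3: the Yoneda lemma for DG modules
-/

set_option autoImplicit false

namespace Pool.Agent.Helper64.RZL

open Pool.Agent.Helper17.RZ Pool.Agent.Helper49.RZ

universe u v w

/-- The identities are closed. -/
theorem d_one {k : Type u} [Field k] (V : DGCat.{u, v, w} k) (X : V.Obj) :
    V.d (zero_add 1) (V.one X) = 0 := by
  have h := V.d_comp (zero_add 0) (zero_add 1) (zero_add 1) (zero_add 1) (add_zero 1) (zero_add 1)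
    (V.one X) (V.one X)
  rw [V.one_comp, V.comp_one, V.one_comp, Int.negOnePow_zero, one_smul] at h
  exact left_eq_add.mp h

/-- Every element of a representable module is the image of the identity. -/
theorem rep_act_one {k : Type u} [Field k] {V : DGCat.{u, v, w} k} {X W : V.Obj} {i : ℤ}
    (g : ((rep X).M W).X i) :
    (rep X).act (zero_add i) (ULift.up (V.one X) : ULift _) (ULift.down g) = g :=
  ULift.ext _ _ (V.one_comp (zero_add i) (ULift.down g))

theorem ap_rep {k : Type u} [Field k] {V : DGCat.{u, v, w} k} {X W : V.Obj} {M : DGMod V} {n i j : ℤ}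
    (φ : ModHom (rep X) M n) (h : n + i = j) (g : ((rep X).M W).X i) :
    ap φ h g = M.act h (ap φ (add_zero n) (ULift.up (V.one X) : ULift _)) (ULift.down g) := by
  refine (congrArg (ap φ h) (rep_act_one g)).symm.trans ?_
  exact ap_nat φ (zero_add i) h (add_zero n) h (ULift.up (V.one X) : ULift _) (ULift.down g)

theorem yoneda : Yoneda.{u, v, w} := by
  intro k _ V X M n
  constructor
  · intro φ ψ h
    refine ap_ext fun W i j hij g => ?_
    rw [ap_rep φ hij g, ap_rep ψ hij g]
    exact congrArg (fun x => M.act hij x (ULift.down g)) h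
  · intro x
    refine ⟨mkHom (fun W i j h => M.act h x ∘ₗ ULift.moduleEquiv.toLinearMap) ?_, ?_⟩
    · intro W Y i m l i' l' h₁ h₂ h₃ h₄ y g
      exact (M.act_act h₃ h₄ h₁ h₂ x (ULift.down y) g).symm
    · exact M.act_one (add_zero n) x

theorem yonedaD : YonedaD.{u, v, w} := by
  intro k _ V X M n m h φ
  refine (d_ap h φ (add_zero m) h (add_zero n) h (zero_add 1) _).trans ?_
  have h0 : ((rep X).M X).d (zero_add 1) (ULift.up (V.one X) : ULift _) = 0 :=
    ULift.ext _ _ (d_one V X)
  rw [h0, map_zero, smul_zero, sub_zero]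

theorem yon_inj {k : Type u} [Field k] {V : DGCat.{u, v, w} k} {X Y : V.Obj} {l n : ℤ}
    (h₁ : l + 1 = n) (x : V.Hom X Y n) (y : ModHom (rep X) (rep Y) l) (h : repMap x = dHom h₁ y) :
    x = V.d h₁ (ULift.down (ap y (add_zero l) (ULift.up (V.one X) : ULift _))) := by
  have h1 := yonedaD X (rep Y) h₁ y
  rw [← h] at h1
  exact (V.comp_one (add_zero n) x).symm.trans (congrArg ULift.down h1)

theorem yon_closed {k : Type u} [Field k] {V : DGCat.{u, v, w} k} {X Y : V.Obj} {n m : ℤ}
    (h₂ : n + 1 = m) (y : ModHom (rep X) (rep Y) n) (h : dHom h₂ y = 0) :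
    V.d h₂ (ULift.down (ap y (add_zero n) (ULift.up (V.one X) : ULift _))) = 0 := by
  have h1 := yonedaD X (rep Y) h₂ y
  rw [h] at h1
  exact (congrArg ULift.down h1).symm

theorem yon_surj {k : Type u} [Field k] {V : DGCat.{u, v, w} k} {X Y : V.Obj} {n : ℤ}
    (y : ModHom (rep X) (rep Y) n) :
    y = repMap (ULift.down (ap y (add_zero n) (ULift.up (V.one X) : ULift _))) := by
  refine (yoneda X (rep Y) n).1 ?_
  exact ULift.ext _ _ (V.comp_one (add_zero n) _).symm

theorem yonQFF : YonQFF.{u, v, w} := by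
  intro k _ V X Y
  constructor
  · intro l n m h₁ _ x y _ hxy
    exact ⟨_, yon_inj h₁ x y hxy⟩
  · intro l n m h₁ h₂ y hy
    refine ⟨_, 0, yon_closed h₂ y hy, ?_⟩
    refine (yon_surj y).trans ?_
    refine (add_zero _).symm.trans (congrArg _ ?_)
    exact (map_zero (dHom h₁)).symm

end Pool.Agent.Helper64.RZL
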