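import Pool.Agent.Helper64.RZL.Thick
import Pool.Agent.Helper64.RZL.Yon

/-!
# Project RZ (MP_77656e_ag), literal layer, module L9: perfect modules, assembly
-/

set_option autoImplicit false

namespace Pool.Agent.Helper64.RZL

open Pool.Agent.Helper17.RZ Pool.Agent.Helper49.RZ

universe u v w v' w'

noncomputable section

theorem thick_mono {k : Type u} [Field k] {C : DGCat.{u, v, w} k} {S T : C.Obj → Prop}
    (h : ∀ X, S X → DGThick C T X) (X : C.Obj) (hX : DGThick C S X) : DGThick C T X :=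
  thickMap (DGFun.id C) S T h X hX

/-- A DG functor which maps `Perf V` to `Perf W`, restricted to perfect modules. -/
def restrictFun {k : Type u} [Field k] {C : DGCat.{u, v, w} k} {D : DGCat.{u, v', w'} k}
    (G : DGFun C D) (P : C.Obj → Prop) (Q : D.Obj → Prop) (h : ∀ X, P X → Q (G.obj X)) :
    DGFun (fullSub C P) (fullSub D Q) where
  obj X := ⟨G.obj X.1, h X.1 X.2⟩
  map := G.map
  map_one X := G.map_one X.1
  map_comp h f g := G.map_comp h f g
  map_d h f := G.map_d h f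

theorem retract_of_hEquiv {k : Type u} [Field k] {C : DGCat.{u, v, w} k} {X Y : C.Obj}
    (h : HEquiv C X Y) : C.Retract X Y := by
  obtain ⟨f, g, s, t, hf, hg, hgf, hfg⟩ := h
  exact ⟨f, g, s, hf, hg, hgf⟩

theorem perfEquiv (hL : DevL.{u, max (max (w + 1) (v + 1)) u, max v w,
      max (max (w + 1) (v + 1)) u, max v w})
    (hR : DevR.{u, max (max (w + 1) (v + 1)) u, max v w, max (max (w + 1) (v + 1)) u, max v w})
    (hC : PerfClosed.{u, v, w})
    (hE : EssSurj.{u, max (max (w + 1) (v + 1)) u, max v w, max (max (w + 1) (v + 1)) u, max v w})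
    (hX : Extension.{u, v, w}) : PerfEquiv.{u, v, w} := by
  intro k _ V W F hF hgen
  obtain ⟨G, hG1, hG2⟩ := hX F hF
  have hmap : ∀ X, DGThick (ModCat V) IsRep X → DGThick (ModCat W) IsRep (G.obj X) := by
    refine thickMap G IsRep IsRep ?_
    rintro _ ⟨X, rfl⟩
    exact DGThick.retract _ _ (DGThick.base (rep (F.obj X)) ⟨_, rfl⟩) (retract_of_hEquiv (hG1 X))
  have hqi : ∀ X Y, DGThick (ModCat V) IsRep X → DGThick (ModCat V) IsRep Y →
      (G.onHom X Y).QI := by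
    intro X Y hX hY
    refine hR G IsRep X ?_ Y hY
    rintro _ ⟨Y', rfl⟩
    refine hL G IsRep (rep Y') ?_ X hX
    rintro _ ⟨X', rfl⟩
    exact hG2 X' Y'
  let G' : DGFun (Perf V) (Perf W) := restrictFun G _ _ hmap
  have hqi' : ∀ X Y, (G'.onHom X Y).QI := by
    intro X Y
    have h := hqi X.1 Y.1 X.2 Y.2
    exact ⟨fun h₁ h₂ x y hx hxy => h.inj h₁ h₂ x y hx hxy, fun h₁ h₂ y hy => h.surj h₁ h₂ y hy⟩
  refine ⟨G', hqi', ?_⟩
  obtain ⟨c1, c2, c3⟩ := hC V
  have hrep : ∀ Y, IsRep Y → DGThick (ModCat W) (fun Z => ∃ X, Z = rep (F.obj X)) Y := by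
    rintro _ ⟨Y, rfl⟩
    refine thickMap (yon W) _ _ ?_ Y (hgen Y)
    rintro _ ⟨X, rfl⟩
    exact DGThick.base _ ⟨X, rfl⟩
  intro Y
  refine hE G' hqi' c1 c2 c3 (fun Z => ∃ X, Z.1 = rep (F.obj X)) ?_ Y ?_
  · rintro ⟨Z, hZ⟩ ⟨X, rfl⟩
    exact ⟨⟨rep X, DGThick.base _ ⟨X, rfl⟩⟩, hG1 X⟩
  · refine thickFull (DGThick (ModCat W) IsRep) (fun Z => ∃ X, Z = rep (F.obj X)) ?_ Y
      (thick_mono hrep Y.1 Y.2)
    refine thick_mono ?_
    rintro _ ⟨X, rfl⟩
    exact DGThick.base _ ⟨_, rfl⟩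

/-- The inclusion of an object. -/
def objFun {k : Type u} [Field k] (C : DGCat.{u, v, w} k) (E : C.Obj) :
    DGFun (oneObj.{u, v, w} (C.End E)) C where
  obj _ := E
  map := LinearMap.id
  map_one _ := rfl
  map_comp _ _ _ := rfl
  map_d _ _ := rfl

/-- The DG functor of a morphism of DG algebras. -/
def morFun {k : Type u} [Field k] {A B : DGA.{u, w} k} (F : DGA.Mor A B) :
    DGFun (oneObj.{u, v, w} A) (oneObj.{u, v, w} B) where
  obj _ := PUnit.unit
  map {_ _ n} := F.f n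
  map_one _ := F.f_one
  map_comp h x y := F.f_mul h x y
  map_d h x := F.f_d h x

theorem morFun_qi {k : Type u} [Field k] {A B : DGA.{u, w} k} (F : DGA.Mor A B) (hF : F.QIso)
    (X Y : (oneObj.{u, v, w} A).Obj) : ((morFun.{u, v, w} F).onHom X Y).QI :=
  ⟨fun h₁ h₂ x y hx hxy => hF.1 _ _ _ h₁ h₂ x y hx hxy, fun h₁ h₂ y hy => hF.2 _ _ _ h₁ h₂ y hy⟩

theorem quasiEquivalent_of_qEquiv (h : PerfEquiv.{u, v, w}) {k : Type u} [Field k]
    {A B : DGA.{u, w} k} (hR : DGA.QEquiv A B) :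
    QuasiEquivalent (Perf (oneObj.{u, v, w} A)) (Perf (oneObj.{u, v, w} B)) := by
  induction hR with
  | refl A => exact QuasiEquivalent.refl _
  | left F hF _ ih =>
    obtain ⟨G, hG⟩ := h (morFun.{u, v, w} F) (morFun_qi F hF)
      (fun Y => DGThick.base _ ⟨PUnit.unit, rfl⟩)
    exact QuasiEquivalent.left G hG ih
  | right F hF _ ih =>
    obtain ⟨G, hG⟩ := h (morFun.{u, v, w} F) (morFun_qi F hF)
      (fun Y => DGThick.base _ ⟨PUnit.unit, rfl⟩)
    exact QuasiEquivalent.right G hG ih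

theorem perfMain (h : PerfEquiv.{u, v, w}) : PerfMain.{u, v, w} := by
  intro k _ C E R hgen hR
  obtain ⟨G, hG⟩ := h (objFun C E)
    (fun X Y => ⟨fun _ _ x y _ hxy => ⟨y, hxy⟩, fun h₁ _ y hy => ⟨y, 0, hy, by
      rw [map_zero, add_zero]; rfl⟩⟩)
    (fun Y => thick_mono (fun Z hZ => DGThick.base _ ⟨PUnit.unit, hZ⟩) Y (hgen Y))
  exact QuasiEquivalent.left G hG (quasiEquivalent_of_qEquiv h hR)

end

end Pool.Agent.Helper64.RZL
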