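import Pool.Agent.Helper49.RZ.St

/-!
# Project RZ (MP_77656e_ag), literal layer, module L1: thick closures
-/

set_option autoImplicit false

namespace Pool.Agent.Helper64.RZL

open Pool.Agent.Helper17.RZ Pool.Agent.Helper49.RZ

universe u v w v' w'

variable {k : Type u} [Field k]

theorem isShift_map {C : DGCat.{u, v, w} k} {D : DGCat.{u, v', w'} k} (F : DGFun C D)
    {X Y : C.Obj} {n : ℤ} (h : IsShift C X Y n) : IsShift D (F.obj X) (F.obj Y) n := by
  obtain ⟨f, g, hf, hg, hgf, hfg⟩ := h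
  refine ⟨F.map f, F.map g, ?_, ?_, ?_, ?_⟩
  · rw [← F.map_d, hf, map_zero]
  · rw [← F.map_d, hg, map_zero]
  · rw [← F.map_comp, hgf, F.map_one]
  · rw [← F.map_comp, hfg, F.map_one]

theorem isCone_map {C : DGCat.{u, v, w} k} {D : DGCat.{u, v', w'} k} (F : DGFun C D)
    {X Y Z : C.Obj} {f : C.Hom X Y 0} (h : IsCone C f Z) : IsCone D (F.map f) (F.obj Z) := by
  obtain ⟨i, p, j, q, h1, h2, h3, h4, h5, h6, h7, h8, h9⟩ := h
  refine ⟨F.map i, F.map p, F.map j, F.map q, ?_, ?_, ?_, ?_, ?_, ?_, ?_, ?_, ?_⟩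
  · rw [← F.map_comp, h1, F.map_one]
  · rw [← F.map_comp, h2, F.map_one]
  · rw [← F.map_comp, ← F.map_comp, ← map_add, h3, F.map_one]
  · rw [← F.map_comp, h4, map_zero]
  · rw [← F.map_comp, h5, map_zero]
  · rw [← F.map_d, h6, map_zero]
  · rw [← F.map_d, h7, map_zero]
  · rw [← F.map_d, h8, F.map_comp]
  · rw [← F.map_d, h9, map_neg, F.map_comp]

theorem retract_map {C : DGCat.{u, v, w} k} {D : DGCat.{u, v', w'} k} (F : DGFun C D)
    {X Y : C.Obj} (h : C.Retract Y X) : D.Retract (F.obj Y) (F.obj X) := by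
  obtain ⟨i, p, s, h1, h2, h3⟩ := h
  refine ⟨F.map i, F.map p, F.map s, ?_, ?_, ?_⟩
  · rw [← F.map_d, h1, map_zero]
  · rw [← F.map_d, h2, map_zero]
  · rw [← F.map_comp, h3, map_add, F.map_one, F.map_d]

theorem thickMap : ThickMap.{u, v, w, v', w'} := by
  intro k _ C D F S T hST X hX
  induction hX with
  | base X h => exact hST X h
  | shift X Y n _ h ih => exact DGThick.shift _ _ n ih (isShift_map F h)
  | cone X Y Z f _ _ hf h ih ih' =>
    refine DGThick.cone _ _ _ (F.map f) ih ih' ?_ (isCone_map F h)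
    rw [← F.map_d, hf, map_zero]
  | retract X Y _ h ih => exact DGThick.retract _ _ ih (retract_map F h)

theorem thickFull : ThickFull.{u, v, w} := by
  intro k _ C P S hP X hX
  suffices H : ∀ X₀ : C.Obj, DGThick C S X₀ → ∀ h : P X₀,
      DGThick (fullSub C P) (fun Y => S Y.1) ⟨X₀, h⟩ from H X.1 hX X.2
  intro X₀ hX₀
  induction hX₀ with
  | base X h => exact fun h' => DGThick.base _ h
  | shift X Y n hX h ih =>
    exact fun h' => DGThick.shift (C := fullSub C P) ⟨X, hP X hX⟩ _ n (ih _) h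
  | cone X Y Z f hX hY hf h ih ih' =>
    exact fun h' => DGThick.cone (C := fullSub C P) ⟨X, hP X hX⟩ ⟨Y, hP Y hY⟩ _ f (ih _) (ih' _) hf h
  | retract X Y hX h ih =>
    exact fun h' => DGThick.retract (C := fullSub C P) ⟨X, hP X hX⟩ _ (ih _) h

end Pool.Agent.Helper64.RZL
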